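import Mathlib

/-!
# Terms, identities and derivations in the signature (product, negation, unit)

The three element algebra `C₃ˢ` and an explicit list of eleven identities.
-/

set_option autoImplicit false

namespace Pool.Agent.X193.C3S

universe u

/-- Terms in the signature (product, negation, unit) over the variables `x_0, x_1, x_2, …`. -/
inductive Tm : Type
  | var (n : ℕ) : Tm
  | one : Tm
  | mul (s t : Tm) : Tm
  | neg (s : Tm) : Tm

/-- Algebras of type `(2, 1, 0)`: a product, a unary operation and a constant, without laws. -/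
structure Alg (A : Type u) where
  /-- the product -/
  mul : A → A → A
  /-- the unary operation -/
  neg : A → A
  /-- the constant -/
  one : A

/-- The value of a term in an algebra under an assignment of the variables. -/
def Tm.eval {A : Type u} (M : Alg A) (v : ℕ → A) : Tm → A
  | .var n => v n
  | .one => M.one
  | .mul s t => M.mul (s.eval M v) (t.eval M v)
  | .neg s => M.neg (s.eval M v)

/-- Substitution of terms for the variables. -/
def Tm.subst (σ : ℕ → Tm) : Tm → Tm
  | .var n => σ n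
  | .one => .one
  | .mul s t => .mul (s.subst σ) (t.subst σ)
  | .neg s => .neg (s.subst σ)

/-- The identity `s ≈ t` holds in the algebra `M`. -/
def Holds {A : Type u} (M : Alg A) (s t : Tm) : Prop :=
  ∀ v : ℕ → A, s.eval M v = t.eval M v

/-- `Derives E s t`: the identity `s ≈ t` is derivable from the set `E` of identities by the rules
of equational logic. -/
inductive Derives (E : Set (Tm × Tm)) : Tm → Tm → Prop
  | ax (s t : Tm) (σ : ℕ → Tm) : (s, t) ∈ E → Derives E (s.subst σ) (t.subst σ)
  | refl (s : Tm) : Derives E s s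
  | symm {s t : Tm} : Derives E s t → Derives E t s
  | trans {s t u : Tm} : Derives E s t → Derives E t u → Derives E s u
  | mul {s s' t t' : Tm} : Derives E s s' → Derives E t t' → Derives E (s.mul t) (s'.mul t')
  | neg {s s' : Tm} : Derives E s s' → Derives E s.neg s'.neg

/-- The three elements `1`, `c`, `¬c`. -/
inductive Three : Type
  | one : Three
  | c : Three
  | nc : Three
  deriving DecidableEq, Fintype

/-- The algebra `C₃ˢ`: the product is the meet of the chain `¬c < c < 1` and the negation fixes `1`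
and swaps `c` and `¬c`. -/
def c3 : Alg Three where
  mul
    | .one, y => y
    | .c, .one => .c
    | .c, .c => .c
    | .c, .nc => .nc
    | .nc, _ => .nc
  neg
    | .one => .one
    | .c => .nc
    | .nc => .c
  one := .one

/-- The term `⊥_s = s · ¬s`. -/
def Tm.bt (s : Tm) : Tm := s.mul s.neg

/-- The term `⊤_s = ¬(¬s · s)`. -/
def Tm.tp (s : Tm) : Tm := (s.neg.mul s).neg

/-- The term `s ⊕ t = ¬(¬s · ¬t)`. -/
def Tm.jn (s t : Tm) : Tm := (s.neg.mul t.neg).neg

/-- The first three variables. -/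
def x0 : Tm := .var 0
/-- The first three variables. -/
def x1 : Tm := .var 1
/-- The first three variables. -/
def x2 : Tm := .var 2

/-- The explicit basis.  With `x = x0`, `y = x1`, `z = x2` it consists of the identities
`(xy)z ≈ x(yz)`, `xy ≈ yx`, `xx ≈ x`, `1x ≈ x`, `¬¬x ≈ x`, `¬1 ≈ 1`,
`⊥_{xy} ≈ ⊥_x ⊥_y`, `⊤_x x ≈ x`, `⊤_{xy} ≈ (x ⊤_y) ⊕ (¬x ⊤_y)`,
`X (X ⊕ Y) ≈ X` for `X = x ⊤_y`, `Y = y ⊤_x`, and
`x (Y ⊕ Z) ≈ x Y ⊕ x Z` for `Y = y ⊤_z`, `Z = z ⊤_y`. -/
def basis : List (Tm × Tm) :=
  [ ((x0.mul x1).mul x2, x0.mul (x1.mul x2)),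
    (x0.mul x1, x1.mul x0),
    (x0.mul x0, x0),
    (Tm.one.mul x0, x0),
    (x0.neg.neg, x0),
    (Tm.one.neg, Tm.one),
    ((x0.mul x1).bt, x0.bt.mul x1.bt),
    (x0.tp.mul x0, x0),
    ((x0.mul x1).tp, (x0.mul x1.tp).jn (x0.neg.mul x1.tp)),
    ((x0.mul x1.tp).mul ((x0.mul x1.tp).jn (x1.mul x0.tp)), x0.mul x1.tp),
    (x0.mul ((x1.mul x2.tp).jn (x2.mul x1.tp)),
      (x0.mul (x1.mul x2.tp)).jn (x0.mul (x2.mul x1.tp))) ]

end Pool.Agent.X193.C3S
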