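import Pool.Agent.X193.C3S.Defs

/-!
# The identities of `C₃ˢ`

Every algebra which satisfies the eleven identities of `basis` satisfies all identities of `C₃ˢ`.
-/

set_option autoImplicit false

namespace Pool.Agent.X193.C3S

universe u

/-- Algebras satisfying the basis, in multiplicative form. -/
class CA (A : Type u) extends CommMonoid A where
  /-- the negation -/
  ng : A → A
  idem : ∀ x : A, x * x = x
  nn : ∀ x : A, ng (ng x) = x
  n1 : ng (1 : A) = 1
  bt_mul : ∀ x y : A, (x * y) * ng (x * y) = (x * ng x) * (y * ng y)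
  tp_mul : ∀ x : A, ng (ng x * x) * x = x
  tp_tp : ∀ x y : A, ng (ng (x * y) * (x * y)) =
    ng (ng (x * ng (ng y * y)) * ng (ng x * ng (ng y * y)))
  absorb : ∀ x y : A, (x * ng (ng y * y)) *
    ng (ng (x * ng (ng y * y)) * ng (y * ng (ng x * x))) = x * ng (ng y * y)
  distr : ∀ x y z : A, x * ng (ng (y * ng (ng z * z)) * ng (z * ng (ng y * y))) =
    ng (ng (x * (y * ng (ng z * z))) * ng (x * (z * ng (ng y * y))))

namespace CA

variable {A : Type u} [CA A]

/-- `⊥_x` -/
def bt (x : A) : A := x * ng x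

/-- `⊤_x` -/
def tp (x : A) : A := ng (bt x)

theorem tp_eq (x : A) : ng (ng x * x) = tp x := by rw [tp, bt, mul_comm]

theorem bt_ng (x : A) : bt (ng x) = bt x := by rw [bt, bt, nn, mul_comm]

theorem bt_mul' (x y : A) : bt (x * y) = bt x * bt y := bt_mul x y

theorem mul_tp (x : A) : x * tp x = x := by
  rw [mul_comm, ← tp_eq, tp_mul]

theorem bt_mul_tp (x : A) : bt x * tp x = bt x := by
  rw [bt, mul_right_comm, mul_tp]

theorem ng_tp (x : A) : ng (tp x) = bt x := nn _

theorem bt_tp (x : A) : bt (tp x) = bt x := by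
  rw [bt, ng_tp, mul_comm, bt_mul_tp]

theorem bt_bt (x : A) : bt (bt x) = bt x := by
  have : bt (bt x) = bt x * tp x := rfl
  rw [this, bt_mul_tp]

theorem bt_mul_self (x : A) : bt x * x = bt x := by
  rw [bt, mul_right_comm, idem]

theorem bt_mul_ng (x : A) : bt x * ng x = bt x := by
  rw [bt, mul_assoc, idem]

theorem tp_congr {x y : A} (h : bt x = bt y) : tp x = tp y := by rw [tp, tp, h]

/-- The fibre of `p`: all elements with the same `⊥` as `p`. -/
def Fib (p : A) : Type u := {w : A // bt w = bt p}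

theorem absorb' {x y : A} (h : bt x = bt y) : x * ng (ng x * ng y) = x := by
  have := absorb x y
  rw [tp_eq, tp_eq, ← tp_congr h, mul_tp, tp_congr h, mul_tp] at this
  exact this

theorem distr' {x y z : A} (h : bt y = bt z) :
    x * ng (ng y * ng z) = ng (ng (x * y) * ng (x * z)) := by
  have := distr x y z
  rw [tp_eq, tp_eq, ← tp_congr h, mul_tp, tp_congr h, mul_tp] at this
  exact this

variable {p : A}

/-- The element of the fibre of `p` given by an element of the algebra. -/
def inF (w : A) (hw : bt w = bt p) : Fib p := ⟨w, hw⟩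

theorem Fib.ext' {x y : Fib p} (h : x.1 = y.1) : x = y := Subtype.ext h

instance : Max (Fib p) := ⟨fun x y => ⟨ng (ng x.1 * ng y.1), by
  rw [bt_ng, bt_mul', bt_ng, bt_ng, x.2, y.2, idem]⟩⟩

instance : Min (Fib p) := ⟨fun x y => ⟨x.1 * y.1, by rw [bt_mul', x.2, y.2, idem]⟩⟩

theorem sup_val (x y : Fib p) : (x ⊔ y).1 = ng (ng x.1 * ng y.1) := rfl

theorem inf_val (x y : Fib p) : (x ⊓ y).1 = x.1 * y.1 := rfl

instance : Lattice (Fib p) := Lattice.mk'
  (fun a b => Fib.ext' (by rw [sup_val, sup_val, mul_comm]))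
  (fun a b c => Fib.ext' (by
    rw [sup_val, sup_val, sup_val, sup_val, nn, nn, mul_assoc]))
  (fun a b => Fib.ext' (by rw [inf_val, inf_val, mul_comm]))
  (fun a b c => Fib.ext' (by
    rw [inf_val, inf_val, inf_val, inf_val, mul_assoc]))
  (fun a b => Fib.ext' (by
    rw [sup_val, inf_val]
    have h := absorb' (x := ng a.1) (y := ng b.1) (by rw [bt_ng, bt_ng, a.2, b.2])
    rw [nn, nn] at h
    rw [h, nn]))
  (fun a b => Fib.ext' (by
    rw [inf_val, sup_val]
    exact absorb' (by rw [a.2, b.2])))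

theorem le_iff (x y : Fib p) : x ≤ y ↔ x.1 * y.1 = x.1 := by
  rw [← inf_eq_left]
  constructor
  · intro h
    rw [← inf_val, h]
  · intro h
    exact Fib.ext' h

instance : DistribLattice (Fib p) := DistribLattice.ofInfSupLe (fun a b c => by
  refine le_of_eq (Fib.ext' ?_)
  rw [inf_val, sup_val, sup_val, inf_val, inf_val]
  exact distr' (by rw [b.2, c.2]))

/-- The elements above the fibre of `p`. -/
def Above (p w : A) : Prop := bt w * bt p = bt p

theorem above_one : Above p 1 := by
  rw [Above, bt, n1, one_mul, one_mul]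

theorem above_mul {w w' : A} (h : Above p w) (h' : Above p w') : Above p (w * w') := by
  rw [Above] at *
  rw [bt_mul', mul_assoc, h', h]

theorem above_ng {w : A} (h : Above p w) : Above p (ng w) := by
  rw [Above] at *
  rw [bt_ng, h]

/-- The projection of an element above the fibre of `p` to the fibre. -/
def fp (p w : A) (h : Above p w) : Fib p := ⟨w * tp p, by
  rw [bt_mul', bt_tp]; exact h⟩

/-- The projection of `⊥_w`. -/
def gp (p w : A) (h : Above p w) : Fib p := ⟨bt w * tp p, by
  rw [bt_mul', bt_tp, bt_bt]; exact h⟩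

/-- the top element of the fibre -/
def tF (p : A) : Fib p := ⟨tp p, bt_tp p⟩

theorem le_tF (w : Fib p) : w ≤ tF p := by
  rw [le_iff]
  show w.1 * tp p = w.1
  rw [← tp_congr w.2, mul_tp]

theorem fp_mul {w w' : A} (h : Above p w) (h' : Above p w') :
    fp p (w * w') (above_mul h h') = fp p w h ⊓ fp p w' h' := by
  apply Fib.ext'
  rw [inf_val]
  show w * w' * tp p = w * tp p * (w' * tp p)
  rw [mul_mul_mul_comm, idem]

theorem gp_mul {w w' : A} (h : Above p w) (h' : Above p w') :
    gp p (w * w') (above_mul h h') = gp p w h ⊓ gp p w' h' := by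
  apply Fib.ext'
  rw [inf_val]
  show bt (w * w') * tp p = bt w * tp p * (bt w' * tp p)
  rw [mul_mul_mul_comm, idem, bt_mul']

theorem gp_ng {w : A} (h : Above p w) : gp p (ng w) (above_ng h) = gp p w h := by
  apply Fib.ext'
  show bt (ng w) * tp p = bt w * tp p
  rw [bt_ng]

theorem gp_le_fp {w : A} (h : Above p w) : gp p w h ≤ fp p w h := by
  rw [le_iff]
  show bt w * tp p * (w * tp p) = bt w * tp p
  rw [mul_mul_mul_comm, idem, bt_mul_self]

theorem fp_inf {w : A} (h : Above p w) :
    fp p w h ⊓ fp p (ng w) (above_ng h) = gp p w h := by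
  apply Fib.ext'
  rw [inf_val]
  show w * tp p * (ng w * tp p) = bt w * tp p
  rw [mul_mul_mul_comm, idem, bt]

theorem fp_sup {w : A} (h : Above p w) :
    fp p w h ⊔ fp p (ng w) (above_ng h) = tF p := by
  apply Fib.ext'
  rw [sup_val]
  show ng (ng (w * tp p) * ng (ng w * tp p)) = tp p
  have h1 := tp_tp w p
  rw [tp_eq, tp_eq] at h1
  rw [← h1]
  exact tp_congr (by rw [bt_mul']; exact h)

theorem bot_le {w : A} (h : Above p w) (hw : bt w = bt p) (x : Fib p) : gp p w h ≤ x := by
  rw [le_iff]
  show bt w * tp p * x.1 = bt w * tp p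
  have hx : bt w = bt x.1 := by rw [hw, x.2]
  rw [hx, mul_right_comm, bt_mul_self]

theorem fp_self {w : A} (h : Above p w) (hw : bt w = bt p) : fp p w h = inF w hw := by
  apply Fib.ext'
  show w * tp p = w
  rw [← tp_congr hw, mul_tp]

open Classical in
/-- The map to the three element algebra given by a prime ideal of the fibre. -/
noncomputable def hm (J : Order.Ideal (Fib p)) (w : A) (h : Above p w) : Three :=
  if gp p w h ∈ J then (if fp p w h ∈ J then .nc else .c) else .one

theorem hm_mul (J : Order.Ideal (Fib p)) (hJ : J.IsPrime) {w w' : A} (h : Above p w)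
    (h' : Above p w') :
    hm J (w * w') (above_mul h h') = c3.mul (hm J w h) (hm J w' h') := by
  have key : ∀ a b : Fib p, a ⊓ b ∈ J ↔ a ∈ J ∨ b ∈ J := fun a b =>
    ⟨hJ.mem_or_mem, fun k => k.elim (fun k => J.lower inf_le_left k)
      (fun k => J.lower inf_le_right k)⟩
  have k1 : fp p w h ∈ J → gp p w h ∈ J := fun k => J.lower (gp_le_fp h) k
  have k2 : fp p w' h' ∈ J → gp p w' h' ∈ J := fun k => J.lower (gp_le_fp h') k
  unfold hm
  rw [fp_mul h h', gp_mul h h', key, key]
  by_cases a1 : gp p w h ∈ J <;> by_cases a2 : gp p w' h' ∈ J <;>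
    by_cases b1 : fp p w h ∈ J <;> by_cases b2 : fp p w' h' ∈ J <;>
    simp_all [c3]

theorem hm_ng (J : Order.Ideal (Fib p)) (hJ : J.IsPrime) {w : A} (h : Above p w) :
    hm J (ng w) (above_ng h) = c3.neg (hm J w h) := by
  have k1 : fp p w h ∈ J → gp p w h ∈ J := fun k => J.lower (gp_le_fp h) k
  have k2 : fp p (ng w) (above_ng h) ∈ J → gp p w h ∈ J := fun k => by
    have := J.lower (gp_le_fp (above_ng h)) k
    rwa [gp_ng] at this
  have k3 : gp p w h ∈ J → fp p w h ∈ J ∨ fp p (ng w) (above_ng h) ∈ J := fun k => by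
    rw [← fp_inf h] at k
    exact hJ.mem_or_mem k
  have k4 : ¬ (fp p w h ∈ J ∧ fp p (ng w) (above_ng h) ∈ J) := fun k => by
    have h1 := Order.Ideal.sup_mem k.1 k.2
    rw [fp_sup h] at h1
    apply hJ.toIsProper.ne_univ
    ext x
    exact ⟨fun _ => trivial, fun _ => J.lower (le_tF x) h1⟩
  unfold hm
  rw [gp_ng h]
  by_cases a1 : gp p w h ∈ J <;> by_cases b1 : fp p w h ∈ J <;>
    by_cases b2 : fp p (ng w) (above_ng h) ∈ J <;> simp_all [c3]

theorem hm_one (J : Order.Ideal (Fib p)) (hJ : J.IsPrime) :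
    hm J (1 : A) above_one = .one := by
  have h1 : gp p (1 : A) above_one = tF p := by
    apply Fib.ext'
    show bt (1 : A) * tp p = tp p
    rw [bt, n1, one_mul, one_mul]
  unfold hm
  rw [h1, if_neg]
  intro k
  apply hJ.toIsProper.ne_univ
  ext x
  exact ⟨fun _ => trivial, fun _ => J.lower (le_tF x) k⟩

/-- The algebra of type `(2, 1, 0)`. -/
def alg (A : Type u) [CA A] : Alg A where
  mul := fun x y => x * y
  neg := ng
  one := 1

theorem hm_eval (J : Order.Ideal (Fib p)) (hJ : J.IsPrime) (v : ℕ → A)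
    (hv : ∀ n, Above p (v n)) (t : Tm) :
    ∃ h : Above p (t.eval (alg A) v),
      hm J _ h = t.eval c3 (fun n => hm J (v n) (hv n)) := by
  induction t with
  | var n => exact ⟨hv n, rfl⟩
  | one => exact ⟨above_one, hm_one J hJ⟩
  | mul s t ihs iht =>
    obtain ⟨h1, h2⟩ := ihs
    obtain ⟨h3, h4⟩ := iht
    refine ⟨above_mul h1 h3, ?_⟩
    have := hm_mul J hJ h1 h3
    rw [h2, h4] at this
    exact this
  | neg s ihs =>
    obtain ⟨h1, h2⟩ := ihs
    refine ⟨above_ng h1, ?_⟩
    have := hm_ng J hJ h1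
    rw [h2] at this
    exact this

end CA

/-- The variable `n` occurs in the term. -/
def Tm.Occ (n : ℕ) : Tm → Prop
  | .var k => k = n
  | .one => False
  | .mul s t => s.Occ n ∨ t.Occ n
  | .neg s => s.Occ n

theorem c3_mul_one (a b : Three) : c3.mul a b = .one ↔ a = .one ∧ b = .one := by
  revert a b; decide

theorem c3_neg_one (a : Three) : c3.neg a = .one ↔ a = .one := by
  revert a; decide

theorem occ_iff (n : ℕ) (t : Tm) :
    t.eval c3 (fun k => if k = n then .nc else .one) = .one ↔ ¬ t.Occ n := by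
  induction t with
  | var k => by_cases h : k = n <;> simp [Tm.eval, Tm.Occ, h]
  | one => exact ⟨fun _ h => h, fun _ => rfl⟩
  | mul s t ihs iht =>
    show c3.mul _ _ = _ ↔ ¬ (s.Occ n ∨ t.Occ n)
    rw [c3_mul_one, ihs, iht, not_or]
  | neg s ihs =>
    show c3.neg _ = _ ↔ ¬ (s.Occ n)
    rw [c3_neg_one, ihs]

theorem occ_congr {s t : Tm} (h : Holds c3 s t) (n : ℕ) : s.Occ n ↔ t.Occ n := by
  have h1 := occ_iff n s
  have h2 := occ_iff n t
  rw [h] at h1
  rw [← not_iff_not, ← h1, h2]

open CA

theorem eval_congr {A : Type u} (M : Alg A) (v v' : ℕ → A) (t : Tm)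
    (h : ∀ n, t.Occ n → v n = v' n) : t.eval M v = t.eval M v' := by
  induction t with
  | var k => exact h k rfl
  | one => rfl
  | mul s t ihs iht =>
    show M.mul _ _ = M.mul _ _
    rw [ihs (fun n hn => h n (Or.inl hn)), iht (fun n hn => h n (Or.inr hn))]
  | neg s ihs =>
    show M.neg _ = M.neg _
    rw [ihs (fun n hn => h n hn)]

variable {A : Type u} [CA A]

theorem bt_eval_of_le (v : ℕ → A) (z : A) (t : Tm)
    (h : ∀ n, t.Occ n → z * bt (v n) = z) : z * bt (t.eval (alg A) v) = z := by
  induction t with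
  | var k => exact h k rfl
  | one =>
    show z * bt (1 : A) = z
    rw [bt, n1, one_mul, mul_one]
  | mul s t ihs iht =>
    show z * bt (_ * _) = z
    rw [bt_mul', ← mul_assoc, ihs (fun n hn => h n (Or.inl hn)),
      iht (fun n hn => h n (Or.inr hn))]
  | neg s ihs =>
    show z * bt (ng _) = z
    rw [bt_ng, ihs (fun n hn => h n hn)]

theorem bt_eval_le (v : ℕ → A) (t : Tm) (n : ℕ) (h : t.Occ n) :
    bt (t.eval (alg A) v) * bt (v n) = bt (t.eval (alg A) v) := by
  induction t with
  | var k =>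
    have : k = n := h
    subst this
    exact idem _
  | one => exact h.elim
  | mul s t ihs iht =>
    show bt (_ * _) * _ = bt (_ * _)
    rw [bt_mul']
    rcases h with h | h
    · rw [mul_right_comm, ihs h]
    · rw [mul_assoc, iht h]
  | neg s ihs =>
    show bt (ng _) * _ = bt (ng _)
    rw [bt_ng, ihs h]

theorem bt_eval_congr {s t : Tm} (h : Holds c3 s t) (v : ℕ → A) :
    bt (s.eval (alg A) v) = bt (t.eval (alg A) v) := by
  have h1 : bt (s.eval (alg A) v) * bt (t.eval (alg A) v) = bt (s.eval (alg A) v) :=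
    bt_eval_of_le v _ t (fun n hn => bt_eval_le v s n ((occ_congr h n).2 hn))
  have h2 : bt (t.eval (alg A) v) * bt (s.eval (alg A) v) = bt (t.eval (alg A) v) :=
    bt_eval_of_le v _ s (fun n hn => bt_eval_le v t n ((occ_congr h n).1 hn))
  rw [← h1, mul_comm, h2]

/-- The main step: two elements of a fibre with the same images are equal. -/
theorem eval_le {s t : Tm} (h : Holds c3 s t) (v : ℕ → A)
    (hv : ∀ n, Above (s.eval (alg A) v) (v n)) :
    (inF (s.eval (alg A) v) rfl : Fib (s.eval (alg A) v)) ≤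
      inF (t.eval (alg A) v) (bt_eval_congr h v).symm ∧
    (inF (t.eval (alg A) v) (bt_eval_congr h v).symm : Fib (s.eval (alg A) v)) ≤
      inF (s.eval (alg A) v) rfl := by
  have main : ∀ J : Order.Ideal (Fib (s.eval (alg A) v)), J.IsPrime →
      ((inF (s.eval (alg A) v) rfl : Fib (s.eval (alg A) v)) ∈ J ↔
      (inF (t.eval (alg A) v) (bt_eval_congr h v).symm : Fib (s.eval (alg A) v)) ∈ J) := by
    intro J hJ
    obtain ⟨h1, h2⟩ := hm_eval J hJ v hv s
    obtain ⟨h3, h4⟩ := hm_eval J hJ v hv t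
    have h5 := h (fun n => hm J (v n) (hv n))
    rw [← h2, ← h4] at h5
    have g1 : gp (s.eval (alg A) v) _ h1 ∈ J := by
      obtain ⟨x, hx⟩ := J.nonempty
      exact J.lower (bot_le h1 rfl x) hx
    have g2 : gp (s.eval (alg A) v) _ h3 ∈ J := by
      obtain ⟨x, hx⟩ := J.nonempty
      exact J.lower (bot_le h3 (bt_eval_congr h v).symm x) hx
    unfold hm at h5
    rw [if_pos g1, if_pos g2, fp_self h1 rfl, fp_self h3 (bt_eval_congr h v).symm] at h5
    by_cases a1 : (inF (s.eval (alg A) v) rfl : Fib (s.eval (alg A) v)) ∈ J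
    · rw [if_pos a1] at h5
      refine ⟨fun _ => ?_, fun _ => a1⟩
      by_contra a2
      rw [if_neg a2] at h5
      cases h5
    · rw [if_neg a1] at h5
      refine ⟨fun a => (a1 a).elim, fun a2 => ?_⟩
      rw [if_pos a2] at h5
      cases h5
  have sep : ∀ P Q : Fib (s.eval (alg A) v),
      (∀ J : Order.Ideal (Fib (s.eval (alg A) v)), J.IsPrime → (Q ∈ J → P ∈ J)) → P ≤ Q := by
    intro P Q hPQ
    by_contra hn
    obtain ⟨J, hJ, hQ, hP⟩ := DistribLattice.prime_ideal_of_disjoint_filter_ideal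
      (F := Order.PFilter.principal P) (I := Order.Ideal.principal Q) (by
        rw [Set.disjoint_left]
        intro x hx hx'
        exact hn (le_trans hx hx'))
    have hQ' : Q ∈ J := hQ (le_refl Q)
    have hP' := hPQ J hJ hQ'
    exact Set.disjoint_left.1 hP (le_refl P) hP'
  exact ⟨sep _ _ (fun J hJ k => (main J hJ).2 k), sep _ _ (fun J hJ k => (main J hJ).1 k)⟩

/-- Every identity of `C₃ˢ` holds in every algebra satisfying the basis. -/
theorem holds_of_c3 {s t : Tm} (h : Holds c3 s t) : Holds (alg A) s t := by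
  classical
  intro v
  let v' : ℕ → A := fun n => if s.Occ n then v n else 1
  have e1 : s.eval (alg A) v = s.eval (alg A) v' := eval_congr _ _ _ _ (fun n hn => by
    show v n = if s.Occ n then v n else 1
    rw [if_pos hn])
  have e2 : t.eval (alg A) v = t.eval (alg A) v' := eval_congr _ _ _ _ (fun n hn => by
    show v n = if s.Occ n then v n else 1
    rw [if_pos ((occ_congr h n).2 hn)])
  have hv : ∀ n, Above (s.eval (alg A) v') (v' n) := by
    intro n
    by_cases hn : s.Occ n
    · rw [Above, mul_comm]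
      exact bt_eval_le v' s n hn
    · have : v' n = 1 := if_neg hn
      rw [this]
      exact above_one
  have h1 := eval_le h v' hv
  have h2 := le_antisymm h1.1 h1.2
  rw [e1, e2]
  exact congrArg Subtype.val h2

end Pool.Agent.X193.C3S
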